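import Pool.Agent.Helper63.Sey4.Goals

/-!
# Project SEY4: the packet MATCH (disjoint pairs)
-/

namespace Pool.Agent.Helper63.Sey4

open Finset

open Classical in
theorem match_step {V : Type} [Fintype V] (Q : V → V → Prop) (S : Finset V) (k D : ℕ)
    (hsymm : ∀ u v, Q u v → Q v u) (hirr : ∀ v, ¬ Q v v) (hne : S.Nonempty)
    (hlow : ∀ v ∈ S, k ≤ (S.filter (fun u => Q v u)).card)
    (hupp : ∀ v ∈ S, (S.filter (fun u => Q v u)).card ≤ D)
    (hS : 8 * D ≤ S.card) (p : ℕ) (hp : p < 2 * k) (M : Finset V) (hM : M ⊆ S)
    (hMc : M.card = 2 * p) : ∃ a ∈ S, ∃ b ∈ S, a ∉ M ∧ b ∉ M ∧ Q a b := by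
  by_contra hcon
  push Not at hcon
  obtain ⟨v0, hv0⟩ := hne
  have hkD : k ≤ D := (hlow v0 hv0).trans (hupp v0 hv0)
  have h1 : k * (S \ M).card ≤ ∑ v ∈ S \ M, (M.filter (fun u => Q v u)).card := by
    rw [mul_comm, ← smul_eq_mul, ← Finset.sum_const]
    apply Finset.sum_le_sum
    intro v hv
    rw [Finset.mem_sdiff] at hv
    refine (hlow v hv.1).trans (Finset.card_le_card ?_)
    intro u hu
    rw [Finset.mem_filter] at hu ⊢
    refine ⟨?_, hu.2⟩
    by_contra huM
    exact hcon v hv.1 u hu.1 hv.2 huM hu.2
  have h2 : ∑ v ∈ S \ M, (M.filter (fun u => Q v u)).card ≤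
      ∑ u ∈ M, (S.filter (fun v => Q u v)).card := by
    have e1 : ∑ v ∈ S \ M, (M.filter (fun u => Q v u)).card =
        ∑ v ∈ S \ M, ∑ u ∈ M, if Q v u then 1 else 0 := by
      apply Finset.sum_congr rfl
      intro v _
      rw [Finset.card_filter]
    rw [e1, Finset.sum_comm]
    apply Finset.sum_le_sum
    intro u hu
    rw [← Finset.card_filter]
    apply Finset.card_le_card
    intro v hv
    rw [Finset.mem_filter] at hv ⊢
    exact ⟨(Finset.mem_sdiff.1 hv.1).1, hsymm _ _ hv.2⟩
  have h3 : ∑ u ∈ M, (S.filter (fun v => Q u v)).card ≤ M.card * D := by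
    rw [← smul_eq_mul, ← Finset.sum_const]
    exact Finset.sum_le_sum (fun u hu => hupp u (hM hu))
  have h4 : (S \ M).card + M.card = S.card := Finset.card_sdiff_add_card_eq_card hM
  rw [hMc] at h3 h4
  have h5 : k * S.card ≤ 2 * p * D + k * (2 * p) := by
    calc k * S.card = k * (S \ M).card + k * (2 * p) := by rw [← h4]; ring
      _ ≤ 2 * p * D + k * (2 * p) := by
        have := (h1.trans h2).trans h3
        omega
  have h6 : k * (8 * D) ≤ k * S.card := Nat.mul_le_mul_left _ hS
  have hk1 : 1 ≤ k := by omega
  have hD1 : 1 ≤ D := hk1.trans hkD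
  have h7 : 2 * p + 2 ≤ 4 * k := by omega
  have h8 : k * (2 * p) ≤ D * (2 * p) := Nat.mul_le_mul_right _ hkD
  have h9 : (2 * p + 2) * (2 * D) ≤ 4 * k * (2 * D) := Nat.mul_le_mul_right _ h7
  nlinarith

theorem goalMATCH : GoalMATCH := by
  classical
  intro V _ Q S k D hsymm hirr hne hlow hupp hS
  have conv : ∀ v, Nat.card {u // u ∈ S ∧ Q v u} = (S.filter (fun u => Q v u)).card := by
    intro v
    rw [Nat.card_eq_fintype_card, Fintype.card_subtype]
    congr 1
    ext u
    simp
  have hlow' : ∀ v ∈ S, k ≤ (S.filter (fun u => Q v u)).card := fun v hv => by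
    rw [← conv]; exact hlow v hv
  have hupp' : ∀ v ∈ S, (S.filter (fun u => Q v u)).card ≤ D := fun v hv => by
    rw [← conv]; exact hupp v hv
  have key : ∀ p, p ≤ 2 * k → ∃ m : Fin p × Bool → V, Function.Injective m ∧ (∀ x, m x ∈ S) ∧
      ∀ i, Q (m (i, false)) (m (i, true)) := by
    intro p
    induction p with
    | zero =>
      intro _
      refine ⟨fun x => x.1.elim0, fun x => x.1.elim0, fun x => x.1.elim0, fun i => i.elim0⟩
    | succ p ih =>
      intro hp
      obtain ⟨m, hm1, hm2, hm3⟩ := ih (by omega)
      have hMc : (univ.image m).card = 2 * p := by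
        rw [Finset.card_image_of_injective _ hm1]
        simp [mul_comm]
      obtain ⟨a, haS, b, hbS, haM, hbM, hab⟩ := match_step Q S k D hsymm hirr hne hlow' hupp' hS p
        (by omega) (univ.image m) (by
          intro x hx
          obtain ⟨y, _, rfl⟩ := Finset.mem_image.1 hx
          exact hm2 y) hMc
      have hane : a ≠ b := by
        rintro rfl
        exact hirr a hab
      have ha' : ∀ x, m x ≠ a := fun x hx => haM (Finset.mem_image.2 ⟨x, Finset.mem_univ _, hx⟩)
      have hb' : ∀ x, m x ≠ b := fun x hx => hbM (Finset.mem_image.2 ⟨x, Finset.mem_univ _, hx⟩)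
      refine ⟨fun x => if h : (x.1 : ℕ) < p then m (⟨x.1, h⟩, x.2) else (if x.2 then b else a),
        ?_, ?_, ?_⟩
      · rintro ⟨i, c⟩ ⟨j, e⟩ hij
        simp only at hij
        by_cases hi : (i : ℕ) < p
        · by_cases hj : (j : ℕ) < p
          · rw [dif_pos hi, dif_pos hj] at hij
            have := hm1 hij
            rw [Prod.mk.injEq, Fin.mk.injEq] at this
            rw [Prod.mk.injEq]
            exact ⟨Fin.ext this.1, this.2⟩
          · rw [dif_pos hi, dif_neg hj] at hij
            cases e
            · exact absurd hij (ha' _)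
            · exact absurd hij (hb' _)
        · by_cases hj : (j : ℕ) < p
          · rw [dif_neg hi, dif_pos hj] at hij
            cases c
            · exact absurd hij.symm (ha' _)
            · exact absurd hij.symm (hb' _)
          · rw [dif_neg hi, dif_neg hj] at hij
            have hij' : i = j := by
              apply Fin.ext
              have := i.2
              have := j.2
              omega
            rw [Prod.mk.injEq]
            refine ⟨hij', ?_⟩
            cases c <;> cases e
            · rfl
            · exact absurd hij hane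
            · exact absurd hij.symm hane
            · rfl
      · rintro ⟨i, c⟩
        simp only
        by_cases hi : (i : ℕ) < p
        · rw [dif_pos hi]
          exact hm2 _
        · rw [dif_neg hi]
          cases c
          · exact haS
          · exact hbS
      · intro i
        simp only
        by_cases hi : (i : ℕ) < p
        · rw [dif_pos hi, dif_pos hi]
          exact hm3 _
        · rw [dif_neg hi, dif_neg hi]
          exact hab
  exact key (2 * k) le_rfl

end Pool.Agent.Helper63.Sey4
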