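import Pool.Agent.Helper63.Sey4.Goals

/-!
# Project SEY4: the packet SLOT (the time slots of the units)
-/

namespace Pool.Agent.Helper63.Sey4

open Finset

namespace Slot

open Classical in
/-- indicator of a proposition -/
noncomputable def ind (P : Prop) : ℕ := if P then 1 else 0

theorem ind_mono {P Q : Prop} (h : P → Q) : ind P ≤ ind Q := by
  unfold ind
  by_cases hP : P
  · rw [if_pos hP, if_pos (h hP)]
  · rw [if_neg hP]; exact Nat.zero_le _

theorem ind_and (P Q : Prop) : ind (P ∧ Q) = ind P * ind Q := by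
  unfold ind
  by_cases hP : P <;> by_cases hQ : Q <;> simp [hP, hQ]

theorem ind_or (P Q : Prop) : ind (P ∨ Q) ≤ ind P + ind Q := by
  unfold ind
  by_cases hP : P <;> by_cases hQ : Q <;> simp [hP, hQ]

theorem ind_true {P : Prop} (h : P) : ind P = 1 := by unfold ind; rw [if_pos h]

theorem ind_false {P : Prop} (h : ¬ P) : ind P = 0 := by unfold ind; rw [if_neg h]

theorem ind_le_one (P : Prop) : ind P ≤ 1 := by
  unfold ind
  by_cases hP : P <;> simp [hP]

theorem card_ind {α : Type} [Fintype α] (P : α → Prop) :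
    Nat.card {a // P a} = ∑ a, ind (P a) := by
  classical
  rw [Nat.card_eq_fintype_card, Fintype.card_subtype, Finset.card_filter]
  apply Finset.sum_congr rfl
  intro a _
  unfold ind
  by_cases h : P a <;> simp [h]

theorem ind_exists {α : Type} [Fintype α] (P : α → Prop) : ind (∃ a, P a) ≤ ∑ a, ind (P a) := by
  classical
  by_cases h : ∃ a, P a
  · obtain ⟨a, ha⟩ := h
    calc ind (∃ a, P a) ≤ 1 := ind_le_one _
      _ = ind (P a) := (ind_true ha).symm
      _ ≤ ∑ a, ind (P a) :=
        Finset.single_le_sum (f := fun a => ind (P a)) (fun _ _ => Nat.zero_le _) (Finset.mem_univ a)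
  · rw [ind_false h]; exact Nat.zero_le _

section

variable {V : Type} [Fintype V] {H : SimpleGraph V} {f : V → ℕ} {s Δ D : ℕ} {E : Type} [Fintype E]
    {pos neg : E → ℕ} {z : E × Bool × Bool → V}

theorem Sp_unique (hU : Units H f s Δ D E pos neg z) {e e' : E} {x : V} (h : Sp s neg z e x)
    (h' : Sp s neg z e' x) : e = e' := by
  rcases h with ⟨c, rfl⟩ | ⟨_, c, rfl⟩ <;> rcases h' with ⟨c', h'⟩ | ⟨_, c', h'⟩ <;>
    exact (Prod.mk.inj (hU.hz h')).1

theorem sum_Sp_e (hU : Units H f s Δ D E pos neg z) (x : V) : ∑ e, ind (Sp s neg z e x) ≤ 1 := by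
  classical
  by_cases h : ∃ e, Sp s neg z e x
  · obtain ⟨e, he⟩ := h
    rw [Finset.sum_eq_single e]
    · exact ind_le_one _
    · intro e' _ hne
      exact ind_false (fun h' => hne (Sp_unique hU h' he))
    · intro h; exact absurd (Finset.mem_univ e) h
  · push Not at h
    rw [Finset.sum_eq_zero (fun e _ => ind_false (h e))]
    exact Nat.zero_le _

theorem sum_Sp_x (e : E) : ∑ x : V, ind (Sp s neg z e x) ≤ 4 := by
  classical
  rw [← card_ind, Nat.card_eq_fintype_card, Fintype.card_subtype]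
  calc (univ.filter (fun x => Sp s neg z e x)).card
      ≤ (univ.image (fun bc : Bool × Bool => z (e, bc.1, bc.2))).card := by
        apply Finset.card_le_card
        intro x hx
        rw [Finset.mem_filter] at hx
        rw [Finset.mem_image]
        rcases hx.2 with ⟨c, rfl⟩ | ⟨_, c, rfl⟩
        · exact ⟨(false, c), Finset.mem_univ _, rfl⟩
        · exact ⟨(true, c), Finset.mem_univ _, rfl⟩
    _ ≤ (univ : Finset (Bool × Bool)).card := Finset.card_image_le
    _ = 4 := by simp

theorem out_le (hS : Setting V H f s Δ D) (v : V) :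
    ∑ u, ind (f v ≠ f u ∧ H.Adj v u) ≤ D := by
  have := hS.hout v
  rw [card_ind] at this
  refine le_trans (Finset.sum_le_sum (fun u _ => ind_mono ?_)) this
  rintro ⟨h1, h2⟩
  exact ⟨fun h => h1 h.symm, h2⟩

/-- the weights -/
noncomputable def wt (H : SimpleGraph V) (f : V → ℕ) (s : ℕ) (neg : E → ℕ)
    (z : E × Bool × Bool → V) (j : ℕ) (e : E) : ℕ :=
  ∑ x, ∑ v, ind (Sp s neg z e x ∧ f v = j ∧ f x ≠ j ∧ H.Adj x v)

theorem wt_sum_j (hS : Setting V H f s Δ D) (e : E) :
    ∑ j : Fin s, wt H f s neg z (j : ℕ) e ≤ 4 * D := by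
  unfold wt
  rw [Finset.sum_comm]
  have h1 : ∀ x, ∑ j : Fin s, ∑ v, ind (Sp s neg z e x ∧ f v = (j : ℕ) ∧ f x ≠ j ∧ H.Adj x v) ≤
      ind (Sp s neg z e x) * D := by
    intro x
    rw [Finset.sum_comm]
    calc ∑ v, ∑ j : Fin s, ind (Sp s neg z e x ∧ f v = (j : ℕ) ∧ f x ≠ j ∧ H.Adj x v)
        ≤ ∑ v, ind (Sp s neg z e x) * ind (f x ≠ f v ∧ H.Adj x v) := by
          apply Finset.sum_le_sum
          intro v _
          rw [← ind_and]
          rw [Finset.sum_eq_single (⟨f v, hS.hf v⟩ : Fin s)]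
          · apply ind_mono
            rintro ⟨h1, _, h3, h4⟩
            exact ⟨h1, h3, h4⟩
          · intro j _ hj
            apply ind_false
            rintro ⟨_, h2, _⟩
            exact hj (Fin.ext h2.symm)
          · intro h; exact absurd (Finset.mem_univ _) h
      _ = ind (Sp s neg z e x) * ∑ v, ind (f x ≠ f v ∧ H.Adj x v) := by rw [Finset.mul_sum]
      _ ≤ ind (Sp s neg z e x) * D := Nat.mul_le_mul_left _ (out_le hS x)
  calc _ ≤ ∑ x, ind (Sp s neg z e x) * D := Finset.sum_le_sum (fun x _ => h1 x)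
    _ = (∑ x, ind (Sp s neg z e x)) * D := by rw [Finset.sum_mul]
    _ ≤ 4 * D := Nat.mul_le_mul_right _ (sum_Sp_x e)

theorem wt_sum_e (hS : Setting V H f s Δ D) (hU : Units H f s Δ D E pos neg z) (j : ℕ)
    (hj : j < s) : ∑ e, wt H f s neg z j e ≤ (Δ + D) * D := by
  unfold wt
  rw [Finset.sum_comm]
  have h0 : ∀ x, ∑ e, ∑ v, ind (Sp s neg z e x ∧ f v = j ∧ f x ≠ j ∧ H.Adj x v) ≤
      ∑ v, ind (f v = j) * ind (f v ≠ f x ∧ H.Adj v x) := by
    intro x
    rw [Finset.sum_comm]
    apply Finset.sum_le_sum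
    intro v _
    calc ∑ e, ind (Sp s neg z e x ∧ f v = j ∧ f x ≠ j ∧ H.Adj x v)
        = ∑ e, ind (Sp s neg z e x) * ind (f v = j ∧ f x ≠ j ∧ H.Adj x v) := by
          apply Finset.sum_congr rfl
          intro e _
          rw [ind_and]
      _ = (∑ e, ind (Sp s neg z e x)) * ind (f v = j ∧ f x ≠ j ∧ H.Adj x v) := by
          rw [Finset.sum_mul]
      _ ≤ 1 * ind (f v = j ∧ f x ≠ j ∧ H.Adj x v) := Nat.mul_le_mul_right _ (sum_Sp_e hU x)
      _ = ind (f v = j ∧ f x ≠ j ∧ H.Adj x v) := one_mul _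
      _ ≤ ind (f v = j ∧ f v ≠ f x ∧ H.Adj v x) := by
          apply ind_mono
          rintro ⟨h1, h2, h3⟩
          exact ⟨h1, fun h => h2 (h.symm.trans h1), h3.symm⟩
      _ = ind (f v = j) * ind (f v ≠ f x ∧ H.Adj v x) := ind_and _ _
  calc _ ≤ ∑ x, ∑ v, ind (f v = j) * ind (f v ≠ f x ∧ H.Adj v x) :=
        Finset.sum_le_sum (fun x _ => h0 x)
    _ = ∑ v, ind (f v = j) * ∑ x, ind (f v ≠ f x ∧ H.Adj v x) := by
        rw [Finset.sum_comm]
        apply Finset.sum_congr rfl
        intro v _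
        rw [Finset.mul_sum]
    _ ≤ ∑ v, ind (f v = j) * D :=
        Finset.sum_le_sum (fun v _ => Nat.mul_le_mul_left _ (out_le hS v))
    _ = (∑ v, ind (f v = j)) * D := by rw [Finset.sum_mul]
    _ ≤ (Δ + D) * D := by
        apply Nat.mul_le_mul_right
        rw [← card_ind (fun v => f v = j)]
        exact hS.hupp j hj

/-- conflicts -/
def Cf (H : SimpleGraph V) (f : V → ℕ) (s : ℕ) (pos neg : E → ℕ) (z : E × Bool × Bool → V)
    (e e' : E) : Prop :=
  e ≠ e' ∧ (Share s pos neg e e' ∨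
    ∃ x y, Sp s neg z e x ∧ Sp s neg z e' y ∧ f x ≠ f y ∧ H.Adj x y)

theorem Cf_symm {e e' : E} (h : Cf H f s pos neg z e e') : Cf H f s pos neg z e' e := by
  obtain ⟨h1, h2⟩ := h
  refine ⟨fun h => h1 h.symm, ?_⟩
  rcases h2 with h2 | ⟨x, y, hx, hy, hxy, hadj⟩
  · left
    rcases h2 with h2 | ⟨h2, h3⟩ | h2 | h2
    · exact Or.inl h2.symm
    · exact Or.inr (Or.inl ⟨h2.symm, h2 ▸ h3⟩)
    · exact Or.inr (Or.inr (Or.inr h2.symm))
    · exact Or.inr (Or.inr (Or.inl h2.symm))
  · right
    exact ⟨y, x, hy, hx, fun h => hxy h.symm, hadj.symm⟩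

theorem Cf_count (hS : Setting V H f s Δ D) (hU : Units H f s Δ D E pos neg z) (e : E) :
    Nat.card {e' // Cf H f s pos neg z e e' ∨ Cf H f s pos neg z e' e} ≤ 8 * D := by
  rw [card_ind]
  have hstep : ∀ e', ind (Cf H f s pos neg z e e' ∨ Cf H f s pos neg z e' e) ≤
      ind (pos e' = pos e) + (ind (neg e' = neg e ∧ neg e < s) + (ind (neg e' = pos e) +
        (ind (pos e' = neg e ∧ neg e < s) +
        ∑ x, ∑ y, ind (Sp s neg z e x ∧ Sp s neg z e' y ∧ f x ≠ f y ∧ H.Adj x y)))) := by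
    intro e'
    have h1 : (Cf H f s pos neg z e e' ∨ Cf H f s pos neg z e' e) →
        (pos e' = pos e ∨ ((neg e' = neg e ∧ neg e < s) ∨ (neg e' = pos e ∨
          ((pos e' = neg e ∧ neg e < s) ∨
          ∃ x y, Sp s neg z e x ∧ Sp s neg z e' y ∧ f x ≠ f y ∧ H.Adj x y)))) := by
      intro h
      have h' : Cf H f s pos neg z e e' := h.elim id Cf_symm
      rcases h'.2 with h2 | h2
      · rcases h2 with h2 | ⟨h2, h3⟩ | h2 | h2
        · exact Or.inl h2.symm
        · exact Or.inr (Or.inl ⟨h2.symm, h3⟩)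
        · exact Or.inr (Or.inr (Or.inl h2.symm))
        · exact Or.inr (Or.inr (Or.inr (Or.inl ⟨h2.symm, h2 ▸ hU.hpos e'⟩)))
      · exact Or.inr (Or.inr (Or.inr (Or.inr h2)))
    refine (ind_mono h1).trans ((ind_or _ _).trans (Nat.add_le_add_left ?_ _))
    refine (ind_or _ _).trans (Nat.add_le_add_left ?_ _)
    refine (ind_or _ _).trans (Nat.add_le_add_left ?_ _)
    refine (ind_or _ _).trans (Nat.add_le_add_left ?_ _)
    refine (ind_exists _).trans (Finset.sum_le_sum (fun x _ => ?_))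
    exact ind_exists _
  refine (Finset.sum_le_sum (fun e' _ => hstep e')).trans ?_
  rw [Finset.sum_add_distrib, Finset.sum_add_distrib, Finset.sum_add_distrib,
    Finset.sum_add_distrib]
  have b1 : ∑ e', ind (pos e' = pos e) ≤ D := by
    rw [← card_ind (fun e' => pos e' = pos e)]
    exact hU.hposD _ (hU.hpos e)
  have b2 : ∑ e', ind (neg e' = neg e ∧ neg e < s) ≤ D := by
    by_cases h : neg e < s
    · refine (Finset.sum_le_sum (fun e' _ => ind_mono (fun h => h.1))).trans ?_
      rw [← card_ind (fun e' => neg e' = neg e)]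
      exact hU.hnegD _ h
    · rw [Finset.sum_eq_zero (fun e' _ => ind_false (fun h' => h h'.2))]
      exact Nat.zero_le _
  have b3 : ∑ e', ind (neg e' = pos e) ≤ D := by
    rw [← card_ind (fun e' => neg e' = pos e)]
    exact hU.hnegD _ (hU.hpos e)
  have b4 : ∑ e', ind (pos e' = neg e ∧ neg e < s) ≤ D := by
    by_cases h : neg e < s
    · refine (Finset.sum_le_sum (fun e' _ => ind_mono (fun h => h.1))).trans ?_
      rw [← card_ind (fun e' => pos e' = neg e)]
      exact hU.hposD _ h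
    · rw [Finset.sum_eq_zero (fun e' _ => ind_false (fun h' => h h'.2))]
      exact Nat.zero_le _
  have b5 : ∑ e', ∑ x, ∑ y, ind (Sp s neg z e x ∧ Sp s neg z e' y ∧ f x ≠ f y ∧ H.Adj x y) ≤
      4 * D := by
    rw [Finset.sum_comm]
    have h1 : ∀ x, ∑ e', ∑ y, ind (Sp s neg z e x ∧ Sp s neg z e' y ∧ f x ≠ f y ∧ H.Adj x y) ≤
        ind (Sp s neg z e x) * D := by
      intro x
      rw [Finset.sum_comm]
      calc ∑ y, ∑ e', ind (Sp s neg z e x ∧ Sp s neg z e' y ∧ f x ≠ f y ∧ H.Adj x y)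
          = ∑ y, ind (Sp s neg z e x) *
              ((∑ e', ind (Sp s neg z e' y)) * ind (f x ≠ f y ∧ H.Adj x y)) := by
            apply Finset.sum_congr rfl
            intro y _
            rw [Finset.sum_mul, Finset.mul_sum]
            apply Finset.sum_congr rfl
            intro e' _
            rw [ind_and, ind_and]
        _ ≤ ∑ y, ind (Sp s neg z e x) * (1 * ind (f x ≠ f y ∧ H.Adj x y)) :=
            Finset.sum_le_sum (fun y _ => Nat.mul_le_mul_left _
              (Nat.mul_le_mul_right _ (sum_Sp_e hU y)))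
        _ = ind (Sp s neg z e x) * ∑ y, ind (f x ≠ f y ∧ H.Adj x y) := by
            rw [Finset.mul_sum]
            apply Finset.sum_congr rfl
            intro y _
            rw [one_mul]
        _ ≤ ind (Sp s neg z e x) * D := Nat.mul_le_mul_left _ (out_le hS x)
    calc _ ≤ ∑ x, ind (Sp s neg z e x) * D := Finset.sum_le_sum (fun x _ => h1 x)
      _ = (∑ x, ind (Sp s neg z e x)) * D := by rw [Finset.sum_mul]
      _ ≤ 4 * D := Nat.mul_le_mul_right _ (sum_Sp_x e)
  omega

end

end Slot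

open Slot in
theorem goalSLOT : GoalBAL → GoalSLOT := by
  classical
  intro hBAL V _ H f s Δ D E _ pos neg z hS hU
  have hΔ := hS.hΔ
  have hT : 3 * (Δ / 3) ≤ Δ := Nat.mul_div_le Δ 3
  have hT' : Δ < 3 * (Δ / 3) + 3 := by omega
  have hT1 : 400 * D ≤ Δ / 3 := by omega
  obtain ⟨τ, hτ1, hτ2⟩ := hBAL E (Fin s) (4 * D + 4) (Δ / 3)
    (fun j e => wt H f s neg z (j : ℕ) e) (Cf H f s pos neg z) (by omega) (by omega)
    (fun e => (wt_sum_j hS e).trans (by omega))
    (fun j => by
      refine (wt_sum_e hS hU (j : ℕ) j.2).trans ?_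
      have h1 : Δ + D ≤ 8 * (Δ / 3) := by omega
      calc (Δ + D) * D ≤ (8 * (Δ / 3)) * (D + 1) := Nat.mul_le_mul h1 (by omega)
        _ = 2 * (4 * D + 4) * (Δ / 3) := by ring)
    (fun e h => h.1 rfl)
    (fun e => by
      have := Cf_count hS hU e
      omega)
  refine ⟨fun e => (τ e : ℕ), fun e => ?_, ?_, ?_, ?_⟩
  · have := (τ e).2
    change 3 * (τ e : ℕ) + 3 ≤ Δ
    omega
  · intro e e' hne hsh heq
    exact hτ1 e e' ⟨hne, Or.inl hsh⟩ (Or.inl heq)
  · intro e e' x y hne hx hy hxy hadj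
    exact hτ1 e e' ⟨hne, Or.inr ⟨x, y, hx, hy, hxy, hadj⟩⟩
  · intro j t
    by_cases hj : j < s
    · by_cases ht : t < Δ / 3
      · have h := hτ2 ⟨j, hj⟩ ⟨t, ht⟩
        refine le_trans (le_of_eq ?_) h
        rw [card_ind]
        rw [Fintype.sum_prod_type, Finset.sum_filter]
        apply Finset.sum_congr rfl
        intro e _
        rw [Fintype.sum_prod_type]
        by_cases he : τ e = ⟨t, ht⟩
        · rw [if_pos he]
          unfold wt
          apply Finset.sum_congr rfl
          intro x _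
          apply Finset.sum_congr rfl
          intro v _
          have he' : (τ e : ℕ) = t := by rw [he]
          refine le_antisymm (ind_mono (fun h => h.2)) (ind_mono (fun h => ⟨he', h⟩))
        · rw [if_neg he]
          apply Finset.sum_eq_zero
          intro x _
          apply Finset.sum_eq_zero
          intro v _
          apply ind_false
          rintro ⟨h1, _⟩
          exact he (Fin.ext h1)
      · rw [card_ind, Finset.sum_eq_zero]
        · exact Nat.zero_le _
        · intro p _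
          apply ind_false
          rintro ⟨h1, _⟩
          exact ht (h1 ▸ (τ p.1).2)
    · rw [card_ind, Finset.sum_eq_zero]
      · exact Nat.zero_le _
      · intro p _
        apply ind_false
        rintro ⟨_, _, h3, _⟩
        exact hj (h3 ▸ hS.hf p.2.2)

end Pool.Agent.Helper63.Sey4
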