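import Pool.Agent.Helper63.Sey4.Goals
import Pool.Agent.Helper48.Sey4.FILL
import Pool.Agent.Helper36.Sey4.PLACE
import Pool.Agent.Helper3.Sey4.CANP
import Pool.Agent.Helper17.Sey4.BAL
import Pool.Agent.Helper63.Sey4.SLOT
import Pool.Agent.Helper83.Sey4.UNITS
import Pool.Agent.Helper93.Sey4.ORDER
import Pool.Agent.Helper26.Sey4.MAIN
import Pool.Agent.Helper87.Sey4.LOPS
import Pool.Agent.Helper95.Sey4.CAN
import Pool.Agent.Helper63.Sey4.MATCH

/-!
# Project SEY4: the goals put together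
-/

namespace Pool.Agent.Helper63.Sey4

theorem goalTHM : GoalMAIN :=
  Pool.Agent.Helper26.Sey4.goalMAIN
    (Pool.Agent.Helper83.Sey4.goalUNITS goalMATCH)
    (goalSLOT
      (Pool.Agent.Helper17.Sey4.goalBAL
        (Pool.Agent.Helper95.Sey4.goalCAN Pool.Agent.Helper87.Sey4.goalLOPS)))
    (Pool.Agent.Helper48.Sey4.goalFILL
      (Pool.Agent.Helper3.Sey4.goalCANP Pool.Agent.Helper87.Sey4.goalLOPS))
    Pool.Agent.Helper36.Sey4.goalPLACE
    Pool.Agent.Helper93.Sey4.goalORDER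

end Pool.Agent.Helper63.Sey4
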