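import Pool.Agent.Helper41.Girth4.Prob

/-!
# Project SEY4 (MP_b6b2d3_co): Seymour's conjecture near the extremal configuration, for all `r`

THEOREM (`GoalMAIN`). Let `r ≥ 0`, `n ≥ 10^6 (r + 1)`, `δ(G) ≥ r n / (r + 1)`, and let `V(G)` be partitioned into `r + 1` classes such
that every class has at least `(1 - 10^-6) n / (r + 1)` vertices and every vertex has at most
`10^-6 n / (r + 1)` neighbours in its own class. Then `G` contains the `r`-th power of `C_n`.

PLAN. `H` = complement, `s = r + 1`, `Δ = ⌊n/s⌋`. The cyclic order consists of `Δ` rows; every row has `s` places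
`0, ..., s - 1` (flag `0`), and there may be additional vertices (flag `1`) directly behind a place. The vertices
of class `i` normally stand at place `i`, one in every row. Adjacent vertices of `H` in one class are far
apart then; for adjacent vertices of different classes we want rows which differ by at least `2`.
A class with more than `Δ` vertices has units `e` (`pos e`): two disjoint pairs of vertices which are not adjacent
in `H` (`z (e, false, ·)` and `z (e, true, ·)`). If `neg e = j < s`, then in the row `dr e` the class `j` has no vertex, both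
vertices of the first pair are in row `dr e` at the places `pos e` and `j`, and in the neighbouring row `md e` the
classes `pos e` and `j` exchange their places; the second pair is in the rows `md e` and `fr e`. If `neg e = s` then the
second vertex of the first pair stands directly behind the first one (flag `1`).
The units get time slots `τ e` (three rows each) by a local lemma (`GoalBAL`), the other vertices
are distributed by random bijections and the lopsided local lemma (`GoalCANP`).
-/

namespace Pool.Agent.Helper63.Sey4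

open Pool.Agent.Helper41.Girth4 (Pr)
open Finset

/-! ### Local lemmas -/

open Classical in
/-- PACKET LOPS (lopsided local lemma, weighted).

PROOF. By induction on `|S|` one shows for every finset `S` of indices: `0 < Pr (∀ j ∈ S, ¬ A j)`, and for every `i`:
`Pr (A i ∧ ∀ j ∈ S, ¬ A j) ≤ x i * Pr (∀ j ∈ S, ¬ A j)`. If `i ∈ S` the left side of the second one is `0`. Otherwise let `S1` = the `j ∈ S` with
`Nb i j`, `S2` = the others; the left side is at most `Pr (A i ∧ ∀ S2, ¬ A) ≤ p i * Pr (∀ S2, ¬ A)`, and (adding the elements of `S1` one after the other to `S2`)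
`Pr (∀ S, ¬ A) ≥ Pr (∀ S2, ¬ A) * ∏_{j ∈ S1} (1 - x j)`, by the induction hypothesis for smaller sets, and
`∏_{j ∈ S1} (1 - x j) ≥ ∏_{Nb i j, j ≠ i} (1 - x j)`. (If `S1 = ∅` then `S2 = S` and the claim is immediate.)
The first one: `Pr (∀ S ∪ {i}, ¬ A) = Pr (∀ S, ¬ A) - Pr (A i ∧ ∀ S, ¬ A) ≥ (1 - x i) Pr (∀ S, ¬ A) > 0`. (Compare `Pool/Agent/Helper51/Girth4/LLL.lean` and
`Pool/Agent/Helper86/Sey3/LL2.lean`.) -/
def GoalLOPS : Prop :=
  ∀ (Ω I : Type) [Fintype Ω] [Nonempty Ω] [Fintype I] (A : I → Ω → Prop) (p x : I → ℝ)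
    (Nb : I → I → Prop), (∀ i, 0 ≤ x i ∧ x i < 1) →
    (∀ (i : I) (S : Finset I), (∀ j ∈ S, ¬ Nb i j) →
      Pr (fun ω => A i ω ∧ ∀ j ∈ S, ¬ A j ω) ≤ p i * Pr (fun ω => ∀ j ∈ S, ¬ A j ω)) →
    (∀ i, p i ≤ x i * ∏ j ∈ univ.filter (fun j => Nb i j ∧ j ≠ i), (1 - x j)) →
    ∃ ω, ∀ i, ¬ A i ω

open Classical in
/-- PACKET CAN (bad partial assignments for independent uniform variables): prove `GoalLOPS → GoalCAN`.

PROOF. `Ω = E → Fin T`, index type = the elements `b` of `B`, `A b τ : ∀ p ∈ b, τ p.1 = p.2`, `Nb b b'` if some `e` occurs in both.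
`p b = (1/T)^|b|` (independence: coordinates of `b` and of the `b'` without common `e` are disjoint), `x b = (2/T)^|b| ≤ 1/2` by the
sum condition (`b` nonempty). `∏_{b' ~ b} (1 - x b') ≥ ∏_{e in b} ∏_{b' ∋ e} (1 - x b') ≥ ∏_{e in b} (1 - ∑_{b' ∋ e} x b') ≥ (1/2)^|b|`
(every `b'` occurs in the double product; `Finset.prod_add_prod_le`-type inequality `∏ (1 - x) ≥ 1 - ∑ x`), and
`(1/T)^|b| = x b (1/2)^|b|`. -/
def GoalCAN : Prop :=
  ∀ (E : Type) [Fintype E] (T : ℕ) (B : Finset (Finset (E × Fin T))), 1 ≤ T →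
    (∀ b ∈ B, b.Nonempty ∧ ∀ p ∈ b, ∀ q ∈ b, p.1 = q.1 → p = q) →
    (∀ e : E, ∑ b ∈ B.filter (fun b => ∃ t, (e, t) ∈ b), (2 / (T : ℝ)) ^ b.card ≤ 1 / 2) →
    ∃ τ : E → Fin T, ∀ b ∈ B, ∃ p ∈ b, τ p.1 ≠ p.2

open Classical in
/-- PACKET CANP (bad partial assignments for random bijections): prove `GoalLOPS → GoalCANP`.

PROOF. `Ω` = the set of the equivalences `π : V ≃ W` with `cw (π v) = cv v` (nonempty, by the equality of the numbers). Index type = the
elements `b` of `B`, `A b π : ∀ p ∈ b, π p.1 = p.2`, `Nb b b'` if some `v` or some `w` occurs in both. `p b = ∏_{p ∈ b} 1 / nn (cv p.1)`. The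
condition of `GoalLOPS`: let `S` be a set of `b'` without common `v` or `w` with `b`, and `F` = the set of the `π` which satisfy no `A b'`, `b' ∈ S`. For
every choice of `w'_p` (`p ∈ b`) with `cw w'_p = cw p.2` the map `π ↦ (product of the commuting swaps of p.2 and w'_p) ∘ π` is an injection from
`{π ∈ F : A b π}` to `{π ∈ F : π p.1 = w'_p for p ∈ b}`: if the image `π'` satisfies `A b'`, `b' ∈ S`, then for `(x, y) ∈ b'` we have `y ≠ p.2` and `x ≠ p.1`, so `x` is not
`π⁻¹ w'_p` (its image under `π'` is `p.2`), hence `π x = π' x = y`; so `π` satisfies `A b'`, contradiction. The sets on the right are disjoint for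
different choices, and there are `∏_{p ∈ b} nn (cv p.1)` choices. So `∏ nn * |{π ∈ F : A b π}| ≤ |F|`.
`x b = ∏_{p ∈ b} 2 / nn (cv p.1) ≤ 1/4`, and as in CAN `∏_{b' ~ b} (1 - x b') ≥ ∏_{p ∈ b} (3/4) (3/4) ≥ (1/2)^|b|`, `p b = x b (1/2)^|b|`. -/
def GoalCANP : Prop :=
  ∀ (C V W : Type) [Fintype V] [Fintype W] (cv : V → C) (cw : W → C) (nn : C → ℕ),
    (∀ c, (univ.filter (fun v => cv v = c)).card = nn c) →
    (∀ c, (univ.filter (fun w => cw w = c)).card = nn c) →
    ∀ B : Finset (Finset (V × W)),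
    (∀ b ∈ B, b.Nonempty ∧ (∀ p ∈ b, cv p.1 = cw p.2) ∧
      ∀ p ∈ b, ∀ q ∈ b, cv p.1 = cv q.1 → p = q) →
    (∀ v : V, ∑ b ∈ B.filter (fun b => ∃ w, (v, w) ∈ b), ∏ p ∈ b, (2 / (nn (cv p.1) : ℝ)) ≤
      1 / 4) →
    (∀ w : W, ∑ b ∈ B.filter (fun b => ∃ v, (v, w) ∈ b), ∏ p ∈ b, (2 / (nn (cv p.1) : ℝ)) ≤
      1 / 4) →
    ∃ π : V ≃ W, (∀ v, cw (π v) = cv v) ∧ ∀ b ∈ B, ∃ p ∈ b, π p.1 ≠ p.2

/-- cyclically neighbouring or equal elements of `0, ..., m - 1` -/
def Nr (m a b : ℕ) : Prop := a = b ∨ (a + 1) % m = b ∨ (b + 1) % m = a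

open Classical in
/-- PACKET BAL (balanced assignment of time slots): prove `GoalCAN → GoalBAL`.

PROOF. `c = 22`. For `j` and `k ≥ 0` let `E_(j,k) = {e : 2^k w j e ≤ W < 2^(k+1) w j e}` (all `e` with `w j e ≥ 1` are in exactly one of them, `k ≤ W`), `n` = its
number of elements, `m = ⌈c n / T + c (3/2)^k⌉ + 1`. Bad assignments: (1) `{(e, t), (e', t')}` with `Cf e e'`, `Nr T t t'` (so `e ≠ e'`). (2) for all `j, k`, all `M ⊆ E_(j,k)` with
`m` elements and all `t`: `{(e, t) : e ∈ M}`. Sum condition for `e`: (1) at most `T/50` elements `e'`, `T` values `t`, 3 values `t'`: `≤ (T/50) * T * 3 * 4/T² ≤ 1/4`.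
(2) for each `j` with `e ∈ E_(j,k)`: `T * choose (n - 1) (m - 1) * (2/T)^m ≤ 2 (2/T)^(m-1) n^(m-1) / (m-1)! ≤ 2 (6 n / (T (m - 1)))^(m-1) ≤ 2 (6/22)^(m-1)` (as
`(m-1)! ≥ ((m-1)/3)^(m-1)` and `m - 1 ≥ 22 n/T`), and `m - 1 ≥ 22 (3/2)^k ≥ 22 + 11 k`; there are at most `2^(k+1)` such `j` for every `k` (as `w j e > W/2^(k+1)` and the sum over `j` is
at most `W`). So at most `∑_k 2^(k+1) * 2 * (3/11)^(22 + 11 k) ≤ 1/4`. By `GoalCAN` there is `τ`. Load: at most `m - 1 ≤ 22 n/T + 22 (3/2)^k + 1` elements of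
`E_(j,k)` are in slot `t`, each with weight `≤ W/2^k`; `∑_k n W/2^k ≤ 2 ∑_e w j e ≤ 4 W T`, so the load is at most
`22 * 4 W + 22 W ∑ (3/4)^k + 2 W ≤ 88 W + 88 W + 2 W ≤ 200 W`. -/
def GoalBAL : Prop :=
  ∀ (E J : Type) [Fintype E] [Fintype J] (W T : ℕ) (w : J → E → ℕ) (Cf : E → E → Prop),
    1 ≤ T → 1 ≤ W → (∀ e, ∑ j, w j e ≤ W) → (∀ j, ∑ e, w j e ≤ 2 * W * T) →
    (∀ e, ¬ Cf e e) → (∀ e, 50 * Nat.card {e' // Cf e e' ∨ Cf e' e} ≤ T) →
    ∃ τ : E → Fin T, (∀ e e', Cf e e' → ¬ Nr T (τ e) (τ e')) ∧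
      ∀ j t, ∑ e ∈ univ.filter (fun e => τ e = t), w j e ≤ 200 * W

open Classical in
/-- PACKET MATCH (disjoint pairs).

PROOF. Take a maximal family of disjoint pairs in `S` (in the relation `Q`), `p` pairs. If `p < 2 k`: the at most `2 p < 4 k` vertices of the pairs meet all `Q`-edges inside `S` (maximality), so the number of ordered
`Q`-pairs in `S` is at most `2 * 2 p * D`, and it is at least `k |S|`. So `8 k D ≤ k |S| ≤ 4 p D < 8 k D` (`k ≥ 1`), contradiction (if `D = 0` and `k ≥ 1` then `S` is empty by the first two conditions; use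
`S` nonempty). So `p ≥ 2 k`; take `2 k` of the pairs. (For `k = 0` there is nothing to show.) -/
def GoalMATCH : Prop :=
  ∀ (V : Type) [Fintype V] (Q : V → V → Prop) (S : Finset V) (k D : ℕ),
    (∀ u v, Q u v → Q v u) → (∀ v, ¬ Q v v) → S.Nonempty →
    (∀ v ∈ S, k ≤ Nat.card {u // u ∈ S ∧ Q v u}) → (∀ v ∈ S, Nat.card {u // u ∈ S ∧ Q v u} ≤ D) →
    8 * D ≤ S.card →
    ∃ m : Fin (2 * k) × Bool → V, Function.Injective m ∧ (∀ x, m x ∈ S) ∧
      ∀ i, Q (m (i, false)) (m (i, true))

/-! ### Units -/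

/-- The setting. `f` = the classes, `D` = a bound for the degrees. -/
structure Setting (V : Type) [Fintype V] (H : SimpleGraph V) (f : V → ℕ) (s Δ D : ℕ) : Prop where
  hs : 1 ≤ s
  hΔ : 100000 * (D + 1) ≤ Δ
  hf : ∀ v, f v < s
  /-- few nonadjacent vertices in the own class -/
  hin : ∀ v, Nat.card {u // u ≠ v ∧ f u = f v ∧ ¬ H.Adj v u} ≤ D
  /-- few adjacent vertices in the other classes -/
  hout : ∀ v, Nat.card {u // f u ≠ f v ∧ H.Adj v u} ≤ D
  /-- the sizes -/
  hlow : ∀ i < s, Δ ≤ Nat.card {v // f v = i} + D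
  hupp : ∀ i < s, Nat.card {v // f v = i} ≤ Δ + D

/-- Units. `E` = the set of the units, `pos e` = the class of the vertices `z (e, ·, ·)`, `neg e` = the other class (or
`neg e = s` if there is none). -/
structure Units {V : Type} [Fintype V] (H : SimpleGraph V) (f : V → ℕ) (s Δ D : ℕ) (E : Type)
    [Fintype E] (pos neg : E → ℕ) (z : E × Bool × Bool → V) : Prop where
  hpos : ∀ e, pos e < s
  hneg : ∀ e, neg e ≤ s
  hne : ∀ e, neg e ≠ pos e
  hz : Function.Injective z
  hfz : ∀ e b c, f (z (e, b, c)) = pos e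
  hnadj : ∀ e b, ¬ H.Adj (z (e, b, false)) (z (e, b, true))
  hcount : ∀ i < s, Nat.card {v // f v = i} + Nat.card {e // neg e = i} =
    Δ + Nat.card {e // pos e = i}
  hposD : ∀ i < s, Nat.card {e // pos e = i} ≤ D
  hnegD : ∀ i < s, Nat.card {e // neg e = i} ≤ D

/-- PACKET UNITS (existence of the units): prove `GoalMATCH → GoalUNITS`.

PROOF. For `i < s` let `n_i` be the number of vertices of class `i`, `k_i = n_i - Δ` (natural subtraction) and `l_i = Δ - n_i` (natural subtraction). `k_i ≤ D`, `l_i ≤ D`. For a class with `k_i ≥ 1` the hypothesis says that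
every vertex has at least `k_i` nonadjacent vertices in its class, so `GoalMATCH` (`Q u v : u ≠ v ∧ ¬ H.Adj u v`, `S` = the class, `8 D ≤ Δ ≤ n_i`) gives `2 k_i` disjoint nonadjacent pairs. `E` = `Σ i : Fin s, Fin k_i`, `pos (i, a) = i`, the
pairs number `2 a` and `2 a + 1` of class `i` give `z`. `∑ k_i ≥ ∑ l_i` as `∑ n_i = |V| ≥ s Δ`; so there is an injection of `Σ j : Fin s, Fin l_j` into `E`; let `neg e = j` if `e` is the image of an element over `j`, and `neg e = s` if `e` is not in
the image. `neg e ≠ pos e`, since `k_i ≥ 1` and `l_i ≥ 1` exclude each other. `n_i + l_i = Δ + k_i`. -/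
def GoalUNITS : Prop :=
  ∀ (V : Type) [Fintype V] (H : SimpleGraph V) (f : V → ℕ) (s Δ D : ℕ), Setting V H f s Δ D →
    s * Δ ≤ Fintype.card V →
    (∀ v, Nat.card {u // f u = f v} ≤ Δ + Nat.card {u // u ≠ v ∧ f u = f v ∧ ¬ H.Adj v u}) →
    ∃ (E : Type) (_ : Fintype E) (pos neg : E → ℕ) (z : E × Bool × Bool → V),
      Units H f s Δ D E pos neg z

/-- `x` is a special vertex of the unit `e` -/
def Sp {V E : Type} (s : ℕ) (neg : E → ℕ) (z : E × Bool × Bool → V) (e : E) (x : V) : Prop :=
  (∃ c, x = z (e, false, c)) ∨ (neg e < s ∧ ∃ c, x = z (e, true, c))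

/-- the rows of a unit with slot `t` -/
def dr {E : Type} (pos neg : E → ℕ) (τ : E → ℕ) (e : E) : ℕ :=
  if pos e < neg e then 3 * τ e else 3 * τ e + 2

def md {E : Type} (τ : E → ℕ) (e : E) : ℕ := 3 * τ e + 1

def fr {E : Type} (pos neg : E → ℕ) (τ : E → ℕ) (e : E) : ℕ :=
  if pos e < neg e then 3 * τ e + 2 else 3 * τ e

/-- The units `e`, `e'` have a class in common. -/
def Share {E : Type} (s : ℕ) (pos neg : E → ℕ) (e e' : E) : Prop :=
  pos e = pos e' ∨ (neg e = neg e' ∧ neg e < s) ∨ pos e = neg e' ∨ neg e = pos e'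

open Classical in
/-- PACKET SLOT (the time slots of the units): prove `GoalBAL → GoalSLOT`.

PROOF. `GoalBAL` with `J = Fin s`, `T = Δ / 3`, `W = 4 D + 4`, `w j e` = the number of pairs `(x, v)` with `Sp x` for `e`, `f v = j`, `f v ≠ f x`, `H.Adj x v`, and `Cf e e'` iff `e ≠ e'` and (`Share e e'` or there are special vertices `x` of `e`,
`y` of `e'` with `f x ≠ f y`, `H.Adj x y`). `∑_j w j e ≤ 4 D ≤ W` (a unit has at most four special vertices). `∑_e w j e ≤ ∑_{v in class j} D ≤ (Δ + D) D ≤ 2 W T` (every `x` is special for at most one `e`, `hz`; `hout`). The number of `e'` in conflict with `e`: `Share`: at most `D` with `pos e' = pos e`,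
`D` with `neg e' = neg e < s`, `D` with `neg e' = pos e`, `D` with `pos e' = neg e`; the others at most `4 D` (neighbours `y` of the four special vertices, each special for at most one `e'`). So `50 * 8 D ≤ T`. -/
def GoalSLOT : Prop :=
  ∀ (V : Type) [Fintype V] (H : SimpleGraph V) (f : V → ℕ) (s Δ D : ℕ) (E : Type) [Fintype E]
    (pos neg : E → ℕ) (z : E × Bool × Bool → V), Setting V H f s Δ D →
    Units H f s Δ D E pos neg z →
    ∃ τ : E → ℕ, (∀ e, 3 * τ e + 3 ≤ Δ) ∧
      (∀ e e', e ≠ e' → Share s pos neg e e' → τ e ≠ τ e') ∧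
      (∀ e e' x y, e ≠ e' → Sp s neg z e x → Sp s neg z e' y → f x ≠ f y → H.Adj x y →
        ¬ Nr (Δ / 3) (τ e) (τ e')) ∧
      ∀ j t, Nat.card {p : E × V × V // τ p.1 = t ∧ Sp s neg z p.1 p.2.1 ∧ f p.2.2 = j ∧
        f p.2.1 ≠ j ∧ H.Adj p.2.1 p.2.2} ≤ 200 * (4 * D + 4)

/-- The conditions on the rows. -/
structure Rows {V : Type} [Fintype V] (H : SimpleGraph V) (f : V → ℕ) (s Δ : ℕ) (E : Type)
    (pos neg : E → ℕ) (z : E × Bool × Bool → V) (τ : E → ℕ) (row : V → ℕ) : Prop where
  hlt : ∀ v, row v < Δ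
  hdr : ∀ e c, row (z (e, false, c)) = dr pos neg τ e
  hmd : ∀ e, neg e < s → row (z (e, true, false)) = md τ e
  hfr : ∀ e, neg e < s → row (z (e, true, true)) = fr pos neg τ e
  /-- two vertices of a class are in the same row only if they are a first pair -/
  htwo : ∀ u v, u ≠ v → f u = f v → row u = row v →
    ∃ e c, u = z (e, false, c) ∧ v = z (e, false, !c)
  /-- a class misses only the rows `dr e` with `neg e` = this class -/
  hex : ∀ i < s, ∀ g < Δ, (∃ v, f v = i ∧ row v = g) ∨ ∃ e, neg e = i ∧ dr pos neg τ e = g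
  hnex : ∀ e v, f v = neg e → row v ≠ dr pos neg τ e
  /-- adjacent vertices in different classes are in rows which are far apart -/
  hfar : ∀ u v, f u ≠ f v → H.Adj u v → ¬ Nr Δ (row u) (row v)

open Classical in
/-- PACKET FILL (the rows of the other vertices): prove `GoalCANP → GoalFILL`.

PROOF. Let `X` be the set of the vertices which are not special for any unit, and `Y` the set of the cells `(i, g)`, `i < s`, `g < Δ`, such that there is no unit `e` with (`pos e = i`, `g = dr e`) or (`pos e = i`, `neg e < s`, `g ∈ {md e, fr e}`) or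
(`neg e = i`, `g = dr e`). For every class `i` the number of elements of `X` in class `i` is `n_i - 2 P_i - 2 P'_i`, `n_i` = size of the class, `P_i` = number of units with `pos e = i`, `P'_i` = number of those with `neg e < s` (`hz`, `hfz`), and the number of cells is `Δ - P_i - 2 P'_i - M_i`,
`M_i` = number of units with `neg e = i` (the rows of different units which share the class `i` are different, because the slots are; the three rows of one unit are different and `< Δ`); these numbers are equal by `hcount`; call them `nn i`; `nn i ≥ Δ - 5 D ≥ (9/10) Δ`.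
The special vertices get their rows by `hdr`, `hmd`, `hfr`. For the others use `GoalCANP` (`V := X`, `W := Y`, `cv = f`, `cw = Prod.fst`). Bad sets: (1) `{(v, (f v, g))}` if there is a special vertex `x` with `f x ≠ f v`, `H.Adj x v`, `Nr Δ (row x) g`. (2) `{(u, (f u, g)), (v, (f v, g'))}` if
`f u ≠ f v`, `H.Adj u v`, `Nr Δ g g'`. Sum for a vertex `v`: (1) at most `3 D` sets with `2/nn`; (2) at most `D * Δ * 3` sets with `4/(nn nn')`: the sum is at most `6 D/(0.9 Δ) + 12 D/(0.81 Δ) ≤ 1/4`. Sum for a cell `(i, g)`: (1) the number of the `v` in class `i` with a special neighbour `x`,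
`f x ≠ i`, `row x` near `g`: the rows near `g` belong to at most three slots, so at most `3 * 200 (4 D + 4)`, times `2/(0.9 Δ)`: `≤ 5400 (D + 1)/Δ ≤ 1/8`; (2) at most `(Δ + D) * D * 3` sets: `(Δ + D) * 3 D * 4/(0.81 Δ²) ≤ 1/8`. `GoalCANP` gives `π`; `row v = (π v).2` for `v ∈ X`. `hfar`: two special vertices: of
different units `e`, `e'`: if the rows are near then the slots are near (`Nr Δ a b` implies `Nr (Δ/3) (a/3) (b/3)` for rows `a, b < 3 (Δ/3)`), excluded; of the same unit: they have the same class. Special and not special: (1); others: (2). `htwo`, `hex`, `hnex`: from the bijection, `hdr`, and the disjointness of the rows of different units which share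
a class. -/
def GoalFILL : Prop :=
  ∀ (V : Type) [Fintype V] (H : SimpleGraph V) (f : V → ℕ) (s Δ D : ℕ) (E : Type) [Fintype E]
    (pos neg : E → ℕ) (z : E × Bool × Bool → V) (τ : E → ℕ), Setting V H f s Δ D →
    Units H f s Δ D E pos neg z → (∀ e, 3 * τ e + 3 ≤ Δ) →
    (∀ e e', e ≠ e' → Share s pos neg e e' → τ e ≠ τ e') →
    (∀ e e' x y, e ≠ e' → Sp s neg z e x → Sp s neg z e' y → f x ≠ f y → H.Adj x y →
      ¬ Nr (Δ / 3) (τ e) (τ e')) →
    (∀ j t, Nat.card {p : E × V × V // τ p.1 = t ∧ Sp s neg z p.1 p.2.1 ∧ f p.2.2 = j ∧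
      f p.2.1 ≠ j ∧ H.Adj p.2.1 p.2.2} ≤ 200 * (4 * D + 4)) →
    ∃ row : V → ℕ, Rows H f s Δ E pos neg z τ row

/-- PACKET PLACE (the places).

PROOF. For a class `i` and a row `g` say that the unit `e` is active in `g` if `g / 3 = τ e` and `neg e < s`; every class `i` has at most one active unit in the row `g` with `i ∈ {pos e, neg e}` (the slots of units which share a class are different). Define `pl v`, `fl v` for `v` with `i = f v`, `g = row v`: if there is no active unit with `i ∈ {pos e, neg e}`: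
`pl v = i`, and `fl v = 1` if `v = z (e, false, true)` for some `e` with `neg e = s`, otherwise `fl v = 0`. If `e` is active and `pos e = i`, `j = neg e`: if `g = dr e`: `pl (z (e, false, false)) = i`, `pl (z (e, false, true)) = j`; if `g = md e`: `pl v = j`; if `g = fr e`: `pl v = i`. If `e` is active and `neg e = i`: if `g = md e`: `pl v = pos e`; if
`g = fr e`: `pl v = i` (`g = dr e` does not occur by `hnex`). In these cases `fl v = 0`.
(1) Injectivity of `(row, pl, fl)`: the occupants of the place `p` in row `g` with flag `0`: if `p` is in no active unit: the vertex of class `p` in row `g` (for a unit with `neg e = s`, `g = dr e`, there are two, one with flag `1`). If `p = pos e`, `e` active: in `dr e`: `z (e, false, false)`; in `md e`: the vertex of class `neg e`; in `fr e`: the vertex of class `p`. If `p = neg e`: in `dr e`: `z (e, false, true)`;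
in `md e`: the vertex of class `pos e`; in `fr e`: the vertex of class `p`. In each case there is exactly one by `htwo`, `hex` (a unit `e'` with `neg e' = i`, `dr e' = g` shares a class and has slot `g / 3`, so `e' = e`). (2) `H.Adj u v`, `f u ≠ f v`: by `hfar` the rows are different and not consecutive. (3) `H.Adj u v`, `f u = f v = i`: the same row is
impossible by `htwo`, `hnadj`. Let `row v = (row u + 1) % Δ`; we need `pl u ≤ pl v`. Same active unit `e` in both rows (the rows are in one slot): `i = pos e < neg e = j`: `dr, md, fr = 3 τ, 3 τ + 1, 3 τ + 2` with places `{i, j}, j, i`; the only decrease is from `md` to `fr`, and these vertices are `z (e, true, false)`, `z (e, true, true)` (`hmd`, `hfr`, `htwo`), not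
adjacent. `j = neg e < pos e = i`: `fr, md, dr = 3 τ, 3 τ + 1, 3 τ + 2` with places `i, j, {i, j}`; again only the pair `z (e, true, ·)`. `i = neg e`: if `pos e < i`: rows `md, fr`: places `pos e, i`; if `i < pos e`: rows `fr, md`: places `i, pos e`. No active unit in both rows: both places are `i`. Otherwise the rows are in different slots (or outside all
slots): `row u` is the last row of its slot or has no active unit, so `pl u ≤ i` (last row: `pos e < neg e`: `fr`, place `i`; `neg e < pos e = i`: `dr`, places `i` and `neg e`; `i = neg e`, `pos e < i`: `fr`, place `i`; `i = neg e < pos e`: `dr`, no vertex), and `row v` is the first row of its slot or has no active unit, so `pl v ≥ i` (symmetric). -/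
def GoalPLACE : Prop :=
  ∀ (V : Type) [Fintype V] (H : SimpleGraph V) (f : V → ℕ) (s Δ D : ℕ) (E : Type) [Fintype E]
    (pos neg : E → ℕ) (z : E × Bool × Bool → V) (τ : E → ℕ) (row : V → ℕ), Setting V H f s Δ D →
    Units H f s Δ D E pos neg z → (∀ e, 3 * τ e + 3 ≤ Δ) →
    (∀ e e', e ≠ e' → Share s pos neg e e' → τ e ≠ τ e') → Rows H f s Δ E pos neg z τ row →
    ∃ pl fl : V → ℕ, (∀ v, pl v < s ∧ fl v ≤ 1) ∧
      (∀ u v, row u = row v → pl u = pl v → fl u = fl v → u = v) ∧
      (∀ g < Δ, ∀ p < s, ∃ v, row v = g ∧ pl v = p ∧ fl v = 0) ∧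
      ∀ u v, H.Adj u v → row u ≠ row v ∧ ((row u + 1) % Δ = row v → pl u ≤ pl v)

/-- PACKET ORDER (from the rows and places to the cyclic order).

PROOF. Order `V` lexicographically by `(row, pl, fl)` (a linear order, since the triple is injective); `σ` = the increasing enumeration, `idx v` = the number of smaller vertices. Let `v = σ i`, `w = σ k`, `k ≠ i`, `d = (k + n - i) % n < s`, and suppose `H.Adj v w`; so `row v ≠ row w`. Every row contains at least `s` vertices, at
least one with every place. If `i < k`: `d = k - i` = number of the vertices `u` with `v ≤ u < w`. If `row w ≥ row v + 2` this set contains the whole row `row v + 1`, so `d ≥ s`, contradiction. So `row w = row v + 1`; the set contains vertices in row `row v` with the places `pl v, ..., s - 1` (at least `s - pl v`) and vertices in row `row w` with the places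
`0, ..., pl w - 1` (at least `pl w`), so `d ≥ s - pl v + pl w ≥ s` as `pl v ≤ pl w` (the last hypothesis; `row v + 1 < Δ`), contradiction. If `k < i`: `d = n - i + k` = number of the `u` with `v ≤ u` or `u < w`. If `row v < Δ - 1` it contains the row `Δ - 1`; if `row w > 0` it contains the row `0`. So `row v = Δ - 1`, `row w = 0`, `(row v + 1) % Δ = row w`,
`pl v ≤ pl w`, and again `d ≥ s - pl v + pl w ≥ s`. -/
def GoalORDER : Prop :=
  ∀ (V : Type) [Fintype V] (H : SimpleGraph V) (s Δ : ℕ) (row pl fl : V → ℕ), 1 ≤ s → 1 ≤ Δ →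
    (∀ v, row v < Δ ∧ pl v < s ∧ fl v ≤ 1) →
    (∀ u v, row u = row v → pl u = pl v → fl u = fl v → u = v) →
    (∀ g < Δ, ∀ p < s, ∃ v, row v = g ∧ pl v = p ∧ fl v = 0) →
    (∀ u v, H.Adj u v → row u ≠ row v ∧ ((row u + 1) % Δ = row v → pl u ≤ pl v)) →
    ∃ σ : Fin (Fintype.card V) ≃ V, ∀ i k : Fin (Fintype.card V), k ≠ i →
      (k.val + Fintype.card V - i.val) % Fintype.card V < s → ¬ H.Adj (σ i) (σ k)

open Classical in
/-- PACKET MAIN: prove
`GoalUNITS → GoalSLOT → GoalFILL → GoalPLACE → GoalORDER → GoalMAIN`.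

PROOF. Let `n = |V|`, `s = r + 1`, `Δ = n / s` (natural division; `Δ ≥ 10^6`), `H = Gᶜ`, `f` composed with `Fin.val`, `D = 2 (Δ + 1) / 10^6` (natural division). All degrees of `H` are at most `n - 1 - δ(G)` and `s (n - δ(G)) ≤ n`, so at most `Δ - 1`. Write `M = 10^6`. The number of `G`-neighbours in the own class is at most `n/(M s)`, so at most
`(Δ + 1)/M ≤ D` (this is `hin`). `Setting`: `100000 (D + 1) ≤ (Δ + 1)/5 + 100000 ≤ Δ`. `hlow`: `n_i ≥ (1 - 1/M) n/s ≥ (1 - 1/M) Δ`, so `Δ ≤ n_i + Δ/M`. `H`-degree of `v` in its class is `n_i - 1 - g`, `g` = number of `G`-neighbours in the class, and it is at most `Δ - 1`; so `n_i ≤ Δ + g` (the last hypothesis of `GoalUNITS`, and `hupp`, using a vertex of the class; if the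
class is empty `hupp` is trivial). `hout`: the number of `H`-neighbours in the other classes is at most `Δ - 1 - (n_i - 1 - g) = Δ - n_i + g ≤ Δ/M + (Δ + 1)/M`. `s Δ ≤ n`. Then `GoalUNITS`, `GoalSLOT`, `GoalFILL`, `GoalPLACE`, `GoalORDER` give `σ`; if the distance is `≤ r < s`, then `σ i`, `σ k` are different and not adjacent in `H`, hence adjacent
in `G`. -/
def GoalMAIN : Prop :=
  ∀ (r : ℕ) (V : Type) [Fintype V] [DecidableEq V] (G : SimpleGraph V) [DecidableRel G.Adj]
    (f : V → Fin (r + 1)), 10 ^ 6 * (r + 1) ≤ Fintype.card V →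
    r * Fintype.card V ≤ (r + 1) * G.minDegree →
    (∀ v, 10 ^ 6 * (r + 1) * (univ.filter (fun u => G.Adj v u ∧ f u = f v)).card ≤
      Fintype.card V) →
    (∀ i, (10 ^ 6 - 1) * Fintype.card V ≤
      10 ^ 6 * (r + 1) * (univ.filter (fun v => f v = i)).card) →
    ∃ σ : Fin (Fintype.card V) ≃ V, ∀ i k : Fin (Fintype.card V), k ≠ i →
      (k.val + Fintype.card V - i.val) % Fintype.card V ≤ r → G.Adj (σ i) (σ k)

end Pool.Agent.Helper63.Sey4
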